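import Mathlib
import Pool.Agent.FMS75.Main

/-!
# A finest matroid subdivision of `Δ(3, 9)` with a decomposable cell

There is a finest matroid subdivision of the hypersimplex `Δ(3, 9)` with a maximal cell which is the
matroid polytope of a decomposable matroid.

The subdivision is a finest refinement of the subdivision given by the rank three matroid on the
points `0, ..., 8` with the lines `0123`, `0456`, `147`, `257`, `367`, `348`, `158`, `268`. Write `A`
for the line `0123`. If, in a refinement, some octahedron of bases `{7, i, j}` with `i, j ∈ A` were
cut inside the polytope of this matroid, then the cut would be transported, along the parallel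
elements at `7`, along the line `0456` from the center `7` to the center `8`, along the parallel
elements at `8`, and along the line `A` back to the center `7`, to a different cut of the same
octahedron. So these octahedra are not cut. Hence, a cell on the other side of the wall `x(A) = 2`
which touches the wall near a middle point contains all the bases `{7, i, j}`, and this forces its
matroid to have at most one nonbasis inside `A`, at most one nontrivial parallel class, the nonloops
outside `A`, and no other nonbases. The polytope of such a matroid can be cut into two matroid
polytopes.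
-/

set_option autoImplicit false

namespace Pool.Agent.Results.MP_6a4d09_co.DecomposableCell

open Pool.Agent.R567.MSub (polytope IsCell IsMatroidSubdivision IsFace)

/-- `C` is a finest matroid subdivision of the polytope of `M`: no other matroid subdivision of
this polytope refines it. -/
def IsFinest {n : ℕ} (M : Matroid (Fin n)) (C : Set (Set (Fin n → ℝ))) : Prop :=
  IsMatroidSubdivision M C ∧
    ∀ C' : Set (Set (Fin n → ℝ)), IsMatroidSubdivision M C' → (∀ Q ∈ C', ∃ R ∈ C, Q ⊆ R) → C' = C

/-- `N` is indecomposable: the only matroid subdivision of its polytope is the trivial one, which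
consists of the faces of the polytope. -/
def Indecomposable {n : ℕ} (N : Matroid (Fin n)) : Prop :=
  ∀ C : Set (Set (Fin n → ℝ)), IsMatroidSubdivision N C → C = {F | IsFace (polytope N) F}

theorem result : ∃ U : Matroid (Fin 9), U.E = Set.univ ∧
    (∀ B : Set (Fin 9), U.IsBase B ↔ B.ncard = 3) ∧
    ∃ C : Set (Set (Fin 9 → ℝ)), IsFinest U C ∧
      ∃ N : Matroid (Fin 9), N.E = Set.univ ∧ IsCell C (polytope N) ∧ ¬ Indecomposable N := by
  obtain ⟨C, hC, N, hNE, hcell, C', hC', hN⟩ := Pool.Agent.FMS75.main
  refine ⟨Pool.Agent.FMS75.U39, rfl, ?_, C, ⟨hC.1, hC.2⟩, N, hNE, hcell, ?_⟩
  · intro B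
    obtain ⟨B, rfl⟩ := (Set.toFinite B).exists_finset_coe
    rw [Set.ncard_coe_finset]
    exact iff_of_eq (congrFun Pool.Agent.FMS75.bp_U B)
  · intro h
    apply hN
    rw [h C' hC']
    exact Pool.Agent.FMS75.face_refl (Pool.Agent.R567.MSub.convex_polytope N)

end Pool.Agent.Results.MP_6a4d09_co.DecomposableCell
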